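import Pool.Agent.helper69.MT.Core2
import Pool.Agent.helper69.MQ.QP

set_option autoImplicit false

/-!
# Examples of thin ultrafilters
-/

namespace Pool.Agent.helper69.MT

open Finset Filter Topology
open Pool.Agent.helper69.MQ (QPoint)

theorem tendsto_natsqrt : Tendsto Nat.sqrt atTop atTop :=
  tendsto_atTop.2 fun b => eventually_atTop.2 ⟨b * b, fun _ hn => Nat.le_sqrt.2 hn⟩

theorem small {ε : ℝ} (hε : 0 < ε) : ∀ᶠ r : ℕ in atTop,
    ((Nat.sqrt r : ℝ) + 1) + Real.log r ≤ ε * r := by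
  have h1 : ∀ᶠ r : ℕ in atTop, Real.log r ≤ ε / 2 * r := by
    have h := (Real.isLittleO_log_id_atTop.def (show 0 < ε / 2 by positivity))
    have h2 := tendsto_natCast_atTop_atTop (R := ℝ) |>.eventually h
    filter_upwards [h2, eventually_ge_atTop 1] with r hr hr1
    have hr' : (1 : ℝ) ≤ r := by exact_mod_cast hr1
    rw [Real.norm_of_nonneg (Real.log_nonneg hr'), id, Real.norm_of_nonneg (by linarith)] at hr
    exact hr
  have h2 : ∀ᶠ r : ℕ in atTop, (Nat.sqrt r : ℝ) + 1 ≤ ε / 2 * r := by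
    obtain ⟨N, hN⟩ := exists_nat_gt (4 / ε)
    filter_upwards [eventually_ge_atTop ((N + 1) * (N + 1))] with r hr
    have h3 : N + 1 ≤ Nat.sqrt r := Nat.le_sqrt.2 hr
    have h4 : Nat.sqrt r * Nat.sqrt r ≤ r := Nat.sqrt_le r
    have h3' : (N : ℝ) + 1 ≤ Nat.sqrt r := by exact_mod_cast h3
    have h4' : (Nat.sqrt r : ℝ) * Nat.sqrt r ≤ r := by exact_mod_cast h4
    have h5 : 4 / ε ≤ Nat.sqrt r := by linarith
    have h6 : 4 ≤ ε * Nat.sqrt r := by
      rw [div_le_iff₀ hε] at h5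
      linarith
    have h7 : (1 : ℝ) ≤ Nat.sqrt r := by
      have : (0 : ℝ) ≤ N := Nat.cast_nonneg _
      linarith
    nlinarith
  filter_upwards [h1, h2] with r h3 h4
  linarith

/-- ultrafilters which contain a set with `n ^ 2 ≤ n'` for all its elements `n < n'` are thin -/
theorem thin_of_sq {U : Ultrafilter ℕ} (hU : (U : Filter ℕ) ≤ atTop) {A : Set ℕ} (hA : A ∈ U)
    (h : ∀ n ∈ A, ∀ n' ∈ A, n < n' → n ^ 2 ≤ n') : Thin U := by
  classical
  refine ⟨A, hA, fun ε hε => ?_⟩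
  have h1 : ∀ᶠ n : ℕ in atTop, ((Nat.sqrt (Nat.sqrt n) : ℝ) + 1) + Real.log (Nat.sqrt n) ≤
      ε * Nat.sqrt n := tendsto_natsqrt.eventually (small hε)
  filter_upwards [hA, hU h1] with n hn hn1
  set r := Nat.sqrt n with hr
  set q := Nat.sqrt r with hq
  have hrr : r * r ≤ n := Nat.sqrt_le n
  have hqq : q * q ≤ r := Nat.sqrt_le r
  have hrr' : (r : ℝ) * r ≤ n := by exact_mod_cast hrr
  have hqq' : (q : ℝ) * q ≤ r := by exact_mod_cast hqq
  have hJr : ∀ j ∈ A, j < n → j ≤ r := by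
    intro j hj hjn
    exact Nat.le_sqrt.2 (by rw [← pow_two]; exact h j hj n hn hjn)
  have hJq : ∀ j ∈ A, ∀ j' ∈ A, j < j' → j' < n → j ≤ q := by
    intro j hj j' hj' hjj' hjn
    have h2 := h j hj j' hj' hjj'
    exact Nat.le_sqrt.2 (by rw [← pow_two]; exact h2.trans (hJr j' hj' hjn))
  have hlogr : ∀ j : ℕ, j ≤ r → (j : ℝ) * Real.log j ≤ r * Real.log r := by
    intro j hj
    rcases Nat.eq_zero_or_pos j with h0 | h0
    · rw [h0]
      simpa using jlog_nonneg r
    · have hj' : (j : ℝ) ≤ r := by exact_mod_cast hj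
      have hj0 : (0 : ℝ) < j := by exact_mod_cast h0
      have hj1 : (1 : ℝ) ≤ j := by exact_mod_cast h0
      exact mul_le_mul hj' (Real.log_le_log hj0 hj') (Real.log_nonneg hj1) (by linarith)
  have hlogq : ∀ j : ℕ, j ≤ q → (j : ℝ) * Real.log j ≤ r := by
    intro j hj
    have hj' : (j : ℝ) ≤ q := by exact_mod_cast hj
    have h2 : Real.log j ≤ j := (Real.log_le_self (Nat.cast_nonneg j))
    have h3 : (0 : ℝ) ≤ j := Nat.cast_nonneg j
    nlinarith
  have hsplit : ∑ j ∈ range n, A.indicator (fun j : ℕ => (j : ℝ) * Real.log j) j =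
      ∑ j ∈ (range n).filter (fun j => j ∈ A ∧ j ≤ q), (j : ℝ) * Real.log j +
      ∑ j ∈ (range n).filter (fun j => j ∈ A ∧ ¬ j ≤ q), (j : ℝ) * Real.log j := by
    rw [Finset.sum_filter, Finset.sum_filter, ← Finset.sum_add_distrib]
    refine Finset.sum_congr rfl fun j _ => ?_
    by_cases hj : j ∈ A
    · rw [Set.indicator_of_mem hj]
      by_cases hjq : j ≤ q
      · simp [hj, hjq]
      · simp [hj, hjq]
    · rw [Set.indicator_of_notMem hj]
      simp [hj]
  have hs1 : ∑ j ∈ (range n).filter (fun j => j ∈ A ∧ j ≤ q), (j : ℝ) * Real.log j ≤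
      (q + 1) * r := by
    have h2 : ((range n).filter (fun j => j ∈ A ∧ j ≤ q)) ⊆ range (q + 1) := by
      intro j hj
      rw [mem_filter] at hj
      exact mem_range.2 (by omega)
    calc ∑ j ∈ (range n).filter (fun j => j ∈ A ∧ j ≤ q), (j : ℝ) * Real.log j
        ≤ ∑ j ∈ range (q + 1), (j : ℝ) * Real.log j :=
          Finset.sum_le_sum_of_subset_of_nonneg h2 fun j _ _ => jlog_nonneg j
      _ ≤ ∑ _j ∈ range (q + 1), (r : ℝ) := Finset.sum_le_sum fun j hj =>
          hlogq j (by rw [mem_range] at hj; omega)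
      _ = (q + 1) * r := by
          rw [Finset.sum_const, card_range, nsmul_eq_mul]
          push_cast
          ring
  have hs2 : ∑ j ∈ (range n).filter (fun j => j ∈ A ∧ ¬ j ≤ q), (j : ℝ) * Real.log j ≤
      r * Real.log r := by
    have hc : ((range n).filter (fun j => j ∈ A ∧ ¬ j ≤ q)).card ≤ 1 := by
      rw [Finset.card_le_one]
      intro a ha b hb
      rw [mem_filter, mem_range] at ha hb
      by_contra hab
      rcases Nat.lt_or_gt_of_ne hab with hlt | hlt
      · exact ha.2.2 (hJq a ha.2.1 b hb.2.1 hlt hb.1)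
      · exact hb.2.2 (hJq b hb.2.1 a ha.2.1 hlt ha.1)
    calc ∑ j ∈ (range n).filter (fun j => j ∈ A ∧ ¬ j ≤ q), (j : ℝ) * Real.log j
        ≤ ∑ _j ∈ (range n).filter (fun j => j ∈ A ∧ ¬ j ≤ q), (r : ℝ) * Real.log r := by
          refine Finset.sum_le_sum fun j hj => ?_
          rw [mem_filter, mem_range] at hj
          exact hlogr j (hJr j hj.2.1 hj.1)
      _ = ((range n).filter (fun j => j ∈ A ∧ ¬ j ≤ q)).card * ((r : ℝ) * Real.log r) := by
          rw [Finset.sum_const, nsmul_eq_mul]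
      _ ≤ 1 * ((r : ℝ) * Real.log r) :=
          mul_le_mul_of_nonneg_right (by exact_mod_cast hc) (jlog_nonneg r)
      _ = _ := one_mul _
  rw [hsplit]
  have h3 : (0 : ℝ) ≤ r := Nat.cast_nonneg r
  have h4 : (r : ℝ) * (((q : ℝ) + 1) + Real.log r) ≤ r * (ε * r) :=
    mul_le_mul_of_nonneg_left hn1 h3
  nlinarith

/-- Q-points are thin -/
theorem thin_of_qpoint {U : Ultrafilter ℕ} (hU : (U : Filter ℕ) ≤ atTop) (hq : QPoint U) :
    Thin U := by
  obtain ⟨A, hA, h⟩ := hq.sparse fun n => n ^ 2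
  exact thin_of_sq hU hA h

end Pool.Agent.helper69.MT
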