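import Pool.Agent.helper86.MQ.Prune

set_option autoImplicit false

/-!
# A pruned tree on which a continuous map depends on the past only

`K` is closed of positive measure, `F` is a map with finite windows on `K`, all values of `F z n` are in a finite
set `Y n`.  `Q 0 = K`, `Q (n+1) = Q n ∩ {z | F z n = f n z}`, where `f n z` is the most likely value of `F` at `n`
on `Q n` given the coordinates `≤ n` of `z`.  The tree consists of the sequences along which the conditional
measure of `Q n` decreases slowly.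
-/

namespace Pool.Agent.helper69.MT

open Finset Filter MeasureTheory Pool.Agent.helper69.MU Pool.Agent.helper86.MQ

/-- a point where a function on a finite set is maximal -/
noncomputable def pick {Y : Type} [Finite Y] [Nonempty Y] (g : Y → ℝ) : Y :=
  Classical.choose (Finite.exists_max g)

theorem pick_spec {Y : Type} [Finite Y] [Nonempty Y] (g : Y → ℝ) (y : Y) : g y ≤ g (pick g) :=
  Classical.choose_spec (Finite.exists_max g) y

section

variable {X : ℕ → Type} [∀ n, Fintype (X n)] [∀ n, Nonempty (X n)]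
  [∀ n, MeasurableSpace (X n)] {Y : ℕ → Type} [∀ n, Fintype (Y n)] [∀ n, Nonempty (Y n)]

/-- the measure -/
noncomputable abbrev PX (X : ℕ → Type) [∀ n, Fintype (X n)] [∀ n, Nonempty (X n)]
    [∀ n, MeasurableSpace (X n)] : Measure (∀ n, X n) := Measure.infinitePi fun n => uni (X n)

/-- the distribution of the value at `n` on `Q`, given the coordinates `≤ n` -/
noncomputable def gd (F : (∀ n, X n) → ∀ n, Y n) (n : ℕ) (Q : Set (∀ n, X n)) (z : ∀ n, X n) :
    Y n → ℝ :=
  fun v => (PX X).real {y | mx (n + 1) z y ∈ Q ∧ F (mx (n + 1) z y) n = v}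

/-- the most likely value -/
noncomputable def vl (F : (∀ n, X n) → ∀ n, Y n) (n : ℕ) (Q : Set (∀ n, X n)) (z : ∀ n, X n) :
    Y n := pick (gd F n Q z)

open Classical in
/-- the sets `Q n` -/
noncomputable def QQ (A : Set ℕ) (K : Set (∀ n, X n)) (F : (∀ n, X n) → ∀ n, Y n) :
    ℕ → Set (∀ n, X n)
  | 0 => K
  | n + 1 => if n ∈ A then {z | z ∈ QQ A K F n ∧ F z n = vl F n (QQ A K F n) z}
      else QQ A K F n

theorem mx_congr {n : ℕ} {x x' : ∀ n, X n} (h : ∀ l, l < n → x l = x' l) (y : ∀ n, X n) :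
    mx n x y = mx n x' y := by
  funext l
  unfold mx
  split_ifs with hl
  · exact h l hl
  · rfl

theorem mx_lt {n : ℕ} (x y : ∀ n, X n) {l : ℕ} (h : l < n) : mx n x y l = x l := if_pos h

theorem vl_congr (F : (∀ n, X n) → ∀ n, Y n) (n : ℕ) (Q : Set (∀ n, X n)) {z z' : ∀ n, X n}
    (h : ∀ l, l ≤ n → z l = z' l) : vl F n Q z = vl F n Q z' := by
  unfold vl
  congr 1
  funext v
  unfold gd
  congr 1
  ext y
  show (mx (n + 1) z y ∈ Q ∧ F (mx (n + 1) z y) n = v) ↔
    (mx (n + 1) z' y ∈ Q ∧ F (mx (n + 1) z' y) n = v)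
  rw [mx_congr (fun l hl => h l (by omega)) y]

variable (A : Set ℕ) (K : Set (∀ n, X n)) (F : (∀ n, X n) → ∀ n, Y n)

theorem QQ_zero : QQ A K F 0 = K := rfl

theorem QQ_mem {n : ℕ} (hn : n ∈ A) : QQ A K F (n + 1) =
    {z | z ∈ QQ A K F n ∧ F z n = vl F n (QQ A K F n) z} :=
  @if_pos (n ∈ A) (Classical.propDecidable _) hn _ _ _

theorem QQ_not {n : ℕ} (hn : n ∉ A) : QQ A K F (n + 1) = QQ A K F n :=
  @if_neg (n ∈ A) (Classical.propDecidable _) hn _ _ _

theorem QQ_succ (n : ℕ) : QQ A K F (n + 1) ⊆ QQ A K F n := by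
  by_cases hn : n ∈ A
  · rw [QQ_mem A K F hn]
    exact fun z hz => hz.1
  · rw [QQ_not A K F hn]

theorem QQ_anti {m n : ℕ} (h : m ≤ n) : QQ A K F n ⊆ QQ A K F m := by
  induction n, h using Nat.le_induction with
  | base => exact subset_rfl
  | succ n _ ih => exact (QQ_succ A K F n).trans ih

theorem QQ_K (n : ℕ) : QQ A K F n ⊆ K := QQ_anti A K F (Nat.zero_le n)

theorem QQ_dep (hKA : ∀ x y : ∀ n, X n, (∀ l ∈ A, x l = y l) → (x ∈ K ↔ y ∈ K))
    (hFA : ∀ x y : ∀ n, X n, (∀ l ∈ A, x l = y l) → F x = F y) (n : ℕ) :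
    ∀ x y : ∀ n, X n, (∀ l ∈ A, x l = y l) → (x ∈ QQ A K F n ↔ y ∈ QQ A K F n) := by
  induction n with
  | zero => exact hKA
  | succ n ih =>
    intro x y hxy
    by_cases hn : n ∈ A
    · rw [QQ_mem A K F hn]
      have h1 : vl F n (QQ A K F n) x = vl F n (QQ A K F n) y := by
        unfold vl
        congr 1
        funext v
        unfold gd
        congr 1
        ext z
        have h2 : ∀ l ∈ A, mx (n + 1) x z l = mx (n + 1) y z l := by
          intro l hl
          unfold mx
          split_ifs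
          · exact hxy l hl
          · rfl
        show (mx (n + 1) x z ∈ QQ A K F n ∧ F (mx (n + 1) x z) n = v) ↔
          (mx (n + 1) y z ∈ QQ A K F n ∧ F (mx (n + 1) y z) n = v)
        rw [ih _ _ h2, hFA _ _ h2]
      show (x ∈ QQ A K F n ∧ F x n = vl F n (QQ A K F n) x) ↔
        (y ∈ QQ A K F n ∧ F y n = vl F n (QQ A K F n) y)
      rw [ih x y hxy, hFA x y hxy, h1]
    · rw [QQ_not A K F hn]
      exact ih x y hxy

omit [∀ n, Fintype (X n)] [∀ n, Nonempty (X n)] [∀ n, MeasurableSpace (X n)] in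
/-- a set which depends on finitely many coordinates is closed -/
theorem isClosed_of_dep [∀ n, TopologicalSpace (X n)] [∀ n, DiscreteTopology (X n)]
    (C : Set (∀ n, X n)) (M : ℕ)
    (h : ∀ x y : ∀ n, X n, (∀ l, l < M → x l = y l) → x ∈ C → y ∈ C) : IsClosed C := by
  rw [← isOpen_compl_iff]
  have h1 : Cᶜ = ⋃ z ∈ Cᶜ, PiNat.cylinder z M := by
    ext y
    simp only [Set.mem_iUnion, exists_prop]
    constructor
    · intro hy
      exact ⟨y, hy, PiNat.self_mem_cylinder y M⟩
    · rintro ⟨z, hz, hyz⟩ hy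
      rw [PiNat.mem_cylinder_iff] at hyz
      exact hz (h y z (fun l hl => hyz l hl) hy)
  rw [h1]
  exact isOpen_biUnion fun z _ => PiNat.isOpen_cylinder X z M

theorem QQ_closed [∀ n, TopologicalSpace (X n)] [∀ n, DiscreteTopology (X n)] (hK : IsClosed K)
    (m : ℕ → ℕ) (hm : ∀ n, ∀ x ∈ K, ∀ y ∈ K, (∀ l, l < m n → x l = y l) → F x n = F y n)
    (n : ℕ) : IsClosed (QQ A K F n) := by
  induction n with
  | zero => exact hK
  | succ n ih =>
    by_cases hn : n ∈ A
    · have h1 : QQ A K F (n + 1) = QQ A K F n ∩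
          {z | ∃ z' ∈ QQ A K F (n + 1), ∀ l, l < max (m n) (n + 1) → z' l = z l} := by
        ext z
        constructor
        · intro hz
          exact ⟨QQ_succ A K F n hz, z, hz, fun _ _ => rfl⟩
        · rintro ⟨hz, z', hz', hzz⟩
          rw [QQ_mem A K F hn] at hz' ⊢
          refine ⟨hz, ?_⟩
          have e1 : F z n = F z' n := hm n z (QQ_K A K F n hz) z' (QQ_K A K F n hz'.1)
            fun l hl => (hzz l (lt_of_lt_of_le hl (le_max_left _ _))).symm
          have e2 : vl F n (QQ A K F n) z = vl F n (QQ A K F n) z' := vl_congr F n _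
            fun l hl => (hzz l (lt_of_lt_of_le (by omega) (le_max_right _ _))).symm
          rw [e1, e2]
          exact hz'.2
      rw [h1]
      refine ih.inter (isClosed_of_dep _ (max (m n) (n + 1)) ?_)
      rintro x y hxy ⟨z', hz', hzz⟩
      exact ⟨z', hz', fun l hl => (hzz l hl).trans (hxy l hl)⟩
    · rw [QQ_not A K F hn]
      exact ih

end

/-- the weights of the tree -/
noncomputable def tt (A : Set ℕ) (b : ℕ → ℝ) (n : ℕ) : ℝ :=
  Real.exp (-∑ j ∈ range n, A.indicator (fun j => Real.log (2 * b j)) j)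

theorem tt_pos (A : Set ℕ) (b : ℕ → ℝ) (n : ℕ) : 0 < tt A b n := Real.exp_pos _

theorem tt_zero (A : Set ℕ) (b : ℕ → ℝ) : tt A b 0 = 1 := by
  simp [tt]

theorem tt_mem {A : Set ℕ} {b : ℕ → ℝ} {n : ℕ} (hn : n ∈ A) (hb : 0 < b n) :
    tt A b (n + 1) * (2 * b n) = tt A b n := by
  unfold tt
  have h1 : Real.exp (-Real.log (2 * b n)) * (2 * b n) = 1 := by
    rw [Real.exp_neg, Real.exp_log (by positivity)]
    exact inv_mul_cancel₀ (by positivity)
  rw [sum_range_succ, Set.indicator_of_mem hn, neg_add, Real.exp_add, mul_assoc, h1, mul_one]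

theorem tt_not {A : Set ℕ} {b : ℕ → ℝ} {n : ℕ} (hn : n ∉ A) :
    tt A b (n + 1) = tt A b n := by
  unfold tt
  rw [sum_range_succ, Set.indicator_of_notMem hn, add_zero]

theorem tt_le {A : Set ℕ} {b : ℕ → ℝ} (hb : ∀ n, 1 ≤ b n) (n : ℕ) : tt A b n ≤ 1 := by
  unfold tt
  rw [Real.exp_le_one_iff, neg_nonpos]
  refine sum_nonneg fun j _ => Set.indicator_nonneg (fun j _ => ?_) j
  have := hb j
  exact Real.log_nonneg (by linarith)

/-- **The tree.** -/
theorem exists_tree2 {X : ℕ → Type} [∀ n, Fintype (X n)] [∀ n, Nonempty (X n)]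
    [∀ n, TopologicalSpace (X n)] [∀ n, DiscreteTopology (X n)] [∀ n, MeasurableSpace (X n)]
    [∀ n, MeasurableSingletonClass (X n)] {Y : ℕ → Type} [∀ n, Fintype (Y n)]
    [∀ n, Nonempty (Y n)] (A : Set ℕ) (K : Set (∀ n, X n)) (hK : IsClosed K)
    (h0 : (PX X) K ≠ 0) (s : ∀ n, X n)
    (hKA : ∀ x y : ∀ n, X n, (∀ l ∈ A, x l = y l) → (x ∈ K ↔ y ∈ K))
    (F : (∀ n, X n) → ∀ n, Y n) (hFA : ∀ x y : ∀ n, X n, (∀ l ∈ A, x l = y l) → F x = F y)
    (m : ℕ → ℕ) (hm : ∀ n, ∀ x ∈ K, ∀ y ∈ K, (∀ l, l < m n → x l = y l) → F x n = F y n) :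
    ∃ (β : ℝ) (S : ∀ n, (∀ l, X l) → Set (X n)) (f : ∀ n, (∀ l, X l) → Y n), 0 < β ∧
      (∀ n x y, (∀ l, l < n → x l = y l) → S n x = S n y) ∧
      (∀ n x, (S n x).Nonempty) ∧
      (∀ n ∉ A, ∀ x, S n x = {s n}) ∧
      (∀ n ∈ A, ∀ x, β * tt A (fun n => Fintype.card (Y n)) n * Fintype.card (X n) ≤
        ((S n x).ncard : ℝ)) ∧
      (∀ n x y, (∀ l, l ≤ n → x l = y l) → f n x = f n y) ∧
      ∀ σ : ∀ n, X n, (∀ n, σ n ∈ S n σ) → σ ∈ K ∧ ∀ n ∈ A, F σ n = f n σ := by
  classical
  haveI : ∀ n, IsProbabilityMeasure (uni (X n)) := fun n => uni_prob (X n)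
  set b : ℕ → ℝ := fun n => Fintype.card (Y n) with hb
  have hb1 : ∀ n, 1 ≤ b n := fun n => by
    have h1 : 1 ≤ Fintype.card (Y n) := Fintype.card_pos
    have h2 : (1 : ℝ) ≤ Fintype.card (Y n) := by exact_mod_cast h1
    exact h2
  have hQc : ∀ n, IsClosed (QQ A K F n) := QQ_closed A K F hK m hm
  have hQm : ∀ n, MeasurableSet (QQ A K F n) := fun n => (hQc n).measurableSet
  have hQd := QQ_dep A K F hKA hFA
  obtain ⟨w, hw⟩ : ∃ w : ℕ → (∀ n, X n) → ℝ, ∀ n x, w n x =
      (PX X).real {y | mx n x y ∈ QQ A K F n} := ⟨_, fun _ _ => rfl⟩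
  obtain ⟨w', hw'⟩ : ∃ w' : ℕ → (∀ n, X n) → ℝ, ∀ n x, w' n x =
      (PX X).real {y | mx (n + 1) x y ∈ QQ A K F n} := ⟨_, fun _ _ => rfl⟩
  obtain ⟨γ, hγ⟩ : ∃ γ : ℝ, γ = (PX X).real K := ⟨_, rfl⟩
  have hγ0 : 0 < γ := by
    rw [hγ, Measure.real, ENNReal.toReal_pos_iff]
    exact ⟨pos_iff_ne_zero.2 h0, measure_lt_top _ _⟩
  have hγ1 : γ ≤ 1 := by
    rw [hγ]
    exact measureReal_le_one
  have hw'le : ∀ n x, w' n x ≤ 1 := by
    intro n x
    rw [hw']
    exact measureReal_le_one
  have hw'0 : ∀ n x, 0 ≤ w' n x := by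
    intro n x
    rw [hw']
    exact measureReal_nonneg
  have hw0 : ∀ x, w 0 x = γ := by
    intro x
    rw [hw, hγ]
    rfl
  have hwd : ∀ n x y, (∀ l, l < n → x l = y l) → w n x = w n y := by
    intro n x y hxy
    rw [hw, hw]
    congr 1
    ext z
    show mx n x z ∈ QQ A K F n ↔ mx n y z ∈ QQ A K F n
    rw [mx_congr hxy z]
  have hw'd : ∀ n x y, (∀ l, l ≤ n → x l = y l) → w' n x = w' n y := by
    intro n x y hxy
    rw [hw', hw']
    congr 1
    ext z
    show mx (n + 1) x z ∈ QQ A K F n ↔ mx (n + 1) y z ∈ QQ A K F n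
    rw [mx_congr (fun l hl => hxy l (by omega)) z]
  have hwA : ∀ n, n ∉ A → ∀ x, w (n + 1) x = w n x := by
    intro n hn x
    rw [hw, hw, QQ_not A K F hn]
    congr 1
    ext z
    refine hQd n _ _ fun l hl => ?_
    have hln : l ≠ n := fun h => hn (h ▸ hl)
    unfold mx
    by_cases h : l < n
    · rw [if_pos (by omega), if_pos h]
    · rw [if_neg (by omega), if_neg h]
  have hmean : ∀ n x, w n x * Fintype.card (X n) = ∑ σ, w' n (Function.update x n σ) := by
    intro n x
    rw [hw, prune_mean (QQ A K F n) (hQm n) n x]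
    exact Finset.sum_congr rfl fun σ _ => (hw' _ _).symm
  -- the most likely value
  have hmax : ∀ n ∈ A, ∀ x, w' n x ≤ b n * w (n + 1) x := by
    intro n hn x
    have e1 : w (n + 1) x = gd F n (QQ A K F n) x (vl F n (QQ A K F n) x) := by
      rw [hw, QQ_mem A K F hn]
      unfold gd
      congr 1
      ext y
      show (mx (n + 1) x y ∈ QQ A K F n ∧
        F (mx (n + 1) x y) n = vl F n (QQ A K F n) (mx (n + 1) x y)) ↔
        (mx (n + 1) x y ∈ QQ A K F n ∧ F (mx (n + 1) x y) n = vl F n (QQ A K F n) x)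
      rw [vl_congr F n (QQ A K F n) (z := mx (n + 1) x y) (z' := x)
        (fun l hl => mx_lt x y (by omega))]
    have e2 : w' n x ≤ ∑ v, gd F n (QQ A K F n) x v := by
      rw [hw']
      have h1 : {y | mx (n + 1) x y ∈ QQ A K F n} ⊆
          ⋃ v ∈ (Finset.univ : Finset (Y n)),
            {y | mx (n + 1) x y ∈ QQ A K F n ∧ F (mx (n + 1) x y) n = v} := by
        intro y hy
        simp only [Set.mem_iUnion, exists_prop]
        exact ⟨F (mx (n + 1) x y) n, Finset.mem_univ _, hy, rfl⟩
      refine (measureReal_mono h1 (measure_ne_top _ _)).trans ?_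
      exact measureReal_biUnion_finset_le _ _
    calc w' n x ≤ ∑ v, gd F n (QQ A K F n) x v := e2
      _ ≤ ∑ _v : Y n, w (n + 1) x := by
          refine Finset.sum_le_sum fun v _ => ?_
          rw [e1]
          exact pick_spec _ v
      _ = b n * w (n + 1) x := by
          rw [Finset.sum_const, nsmul_eq_mul, Finset.card_univ]
  obtain ⟨t, ht⟩ : ∃ t : ℕ → ℝ, ∀ n, t n = γ * tt A b n := ⟨_, fun _ => rfl⟩
  have htp : ∀ n, 0 < t n := by
    intro n
    rw [ht]
    exact mul_pos hγ0 (tt_pos _ _ _)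
  have ht1 : ∀ n, t n ≤ 1 := by
    intro n
    rw [ht]
    exact mul_le_one₀ hγ1 (tt_pos _ _ _).le (tt_le hb1 n)
  obtain ⟨G, hG⟩ : ∃ G : ∀ n, (∀ l, X l) → Finset (X n), ∀ n x, G n x =
      Finset.univ.filter fun σ => w n x / 2 ≤ w' n (Function.update x n σ) := ⟨_, fun _ _ => rfl⟩
  obtain ⟨S, hS⟩ : ∃ S : ∀ n, (∀ l, X l) → Set (X n), ∀ n x, S n x =
      if n ∈ A then (if t n ≤ w n x then (G n x : Set (X n)) else Set.univ) else {s n} :=
    ⟨_, fun _ _ => rfl⟩
  have hcount : ∀ n ∈ A, ∀ x, t n / 2 * Fintype.card (X n) ≤ ((S n x).ncard : ℝ) := by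
    intro n hn x
    have hc : (0 : ℝ) ≤ Fintype.card (X n) := Nat.cast_nonneg _
    rw [hS, if_pos hn]
    split_ifs with h
    · rw [Set.ncard_coe_finset, hG]
      have h1 : ∑ σ, w' n (Function.update x n σ) ≤
          ∑ σ : X n, ((if w n x / 2 ≤ w' n (Function.update x n σ) then (1 : ℝ) else 0) +
            w n x / 2) := by
        refine Finset.sum_le_sum fun σ _ => ?_
        have hp := htp n
        split_ifs with h2
        · have := hw'le n (Function.update x n σ)
          linarith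
        · push Not at h2
          linarith
      rw [Finset.sum_add_distrib, Finset.sum_boole, Finset.sum_const, nsmul_eq_mul,
        Finset.card_univ, ← hmean] at h1
      have h3 : t n / 2 * Fintype.card (X n) ≤ w n x / 2 * Fintype.card (X n) :=
        mul_le_mul_of_nonneg_right (by linarith) hc
      linarith
    · rw [Set.ncard_univ, Nat.card_eq_fintype_card]
      have h1 := ht1 n
      nlinarith
  refine ⟨γ / 2, S, fun n x => vl F n (QQ A K F n) x, by positivity, ?_, ?_, ?_, ?_, ?_, ?_⟩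
  · intro n x y hxy
    rw [hS, hS]
    have h1 : w n x = w n y := hwd n x y hxy
    have h2 : G n x = G n y := by
      rw [hG, hG, h1]
      congr 1
      funext σ
      rw [hw'd n (Function.update x n σ) (Function.update y n σ)]
      intro l hl
      rcases hl.lt_or_eq with h | h
      · rw [Function.update_of_ne h.ne, Function.update_of_ne h.ne, hxy l h]
      · subst h
        rw [Function.update_self, Function.update_self]
    rw [h1, h2]
  · intro n x
    by_cases hn : n ∈ A
    · have h1 := hcount n hn x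
      have hc : (0 : ℝ) < Fintype.card (X n) := Nat.cast_pos.2 Fintype.card_pos
      have h2 : 0 < t n / 2 * Fintype.card (X n) := mul_pos (half_pos (htp n)) hc
      have h3 : (S n x).ncard ≠ 0 := by
        intro h
        rw [h] at h1
        simp only [Nat.cast_zero] at h1
        linarith
      exact Set.nonempty_of_ncard_ne_zero h3
    · rw [hS, if_neg hn]
      exact Set.singleton_nonempty _
  · intro n hn x
    rw [hS, if_neg hn]
  · intro n hn x
    have h1 := hcount n hn x
    rw [ht] at h1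
    have h2 : γ / 2 * tt A b n = γ * tt A b n / 2 := by ring
    rw [h2]
    exact h1
  · intro n x y hxy
    exact vl_congr F n _ hxy
  · intro σ hσ
    have hup : ∀ n, Function.update σ n (σ n) = σ := fun n => Function.update_eq_self n σ
    have hind : ∀ n, t n ≤ w n σ := by
      intro n
      induction n with
      | zero =>
        rw [hw0, ht, tt_zero, mul_one]
      | succ n ih =>
        by_cases hn : n ∈ A
        · have h1 := hσ n
          rw [hS, if_pos hn, if_pos ih, hG] at h1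
          have h2 := (Finset.mem_filter.1 (Finset.mem_coe.1 h1)).2
          rw [hup] at h2
          have h3 := hmax n hn σ
          have hbn : 0 < b n := by linarith [hb1 n]
          have h4 : t (n + 1) * (2 * b n) = t n := by
            rw [ht, ht, mul_assoc, tt_mem hn hbn]
          have h5 : t (n + 1) * (2 * b n) ≤ w (n + 1) σ * (2 * b n) := by
            rw [h4]
            nlinarith
          exact le_of_mul_le_mul_right h5 (by positivity)
        · rw [ht, tt_not hn, ← ht, hwA n hn]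
          exact ih
    have hne : ∀ n, ∃ y, mx n σ y ∈ QQ A K F n := by
      intro n
      by_contra h
      push Not at h
      have h1 : {y | mx n σ y ∈ QQ A K F n} = ∅ := by
        ext y
        simp [h y]
      have h2 := hind n
      rw [hw, h1, measureReal_empty] at h2
      have := htp n
      linarith
    choose y hy using hne
    have hσK : σ ∈ K := by
      refine hK.mem_of_tendsto (f := fun n => mx n σ (y n)) (b := atTop) ?_
        (Eventually.of_forall fun n => QQ_K A K F n (hy n))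
      rw [tendsto_pi_nhds]
      intro l
      refine tendsto_const_nhds.congr' ?_
      filter_upwards [eventually_gt_atTop l] with n hn
      show σ l = if l < n then σ l else y n l
      rw [if_pos hn]
    refine ⟨hσK, fun j hj => ?_⟩
    set n := max (m j) (j + 1) with hn
    have h1 : mx n σ (y n) ∈ QQ A K F (j + 1) := QQ_anti A K F (le_max_right _ _) (hy n)
    rw [QQ_mem A K F hj] at h1
    have e1 : F σ j = F (mx n σ (y n)) j := hm j σ hσK _ (QQ_K A K F n (hy n))
      fun l hl => (mx_lt σ (y n) (lt_of_lt_of_le hl (le_max_left _ _))).symm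
    have e2 : vl F j (QQ A K F j) (mx n σ (y n)) = vl F j (QQ A K F j) σ := vl_congr F j _
      fun l hl => mx_lt σ (y n) (lt_of_lt_of_le (by omega) (le_max_right _ _))
    rw [e1, h1.2, e2]

end Pool.Agent.helper69.MT
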