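import Pool.Agent.helper69.MT.Stmt
import Pool.Agent.helper69.MT.Tree2
import Pool.Agent.helper69.MQ.Core

set_option autoImplicit false

/-!
# Lifts with finite windows, for thin ultrafilters
-/

namespace Pool.Agent.helper69.MT

open Finset Filter Topology MeasureTheory
open Equiv (Perm)
open Pool.Agent.helper4.UP
open Pool.Agent.helper69.MQ (PP topPP measPP haar cl_congr_mem)

theorem jlog_nonneg (j : ℕ) : 0 ≤ (j : ℝ) * Real.log j := by
  rcases Nat.eq_zero_or_pos j with h | h
  · simp [h]
  · have h1 : (1 : ℝ) ≤ j := by exact_mod_cast h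
    exact mul_nonneg (by positivity) (Real.log_nonneg h1)

theorem log_card (j : ℕ) : Real.log (2 * (Fintype.card (Perm (Fin j)) : ℝ)) ≤
    2 * ((j : ℝ) * Real.log j) + (if j < 2 then Real.log 2 else 0) := by
  rw [Fintype.card_perm, Fintype.card_fin]
  rcases Nat.lt_or_ge j 2 with h | h
  · rw [if_pos h]
    interval_cases j
    · simp
    · simp
  · rw [if_neg (by omega), add_zero]
    have hj : (2 : ℝ) ≤ j := by exact_mod_cast h
    have hj0 : (0 : ℝ) < j := by linarith
    have h1 : (Nat.factorial j : ℝ) ≤ (j : ℝ) ^ j := by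
      exact_mod_cast Nat.factorial_le_pow j
    have h2 : (0 : ℝ) < Nat.factorial j := by exact_mod_cast Nat.factorial_pos j
    rw [Real.log_mul (by norm_num) h2.ne']
    have h3 : Real.log (Nat.factorial j) ≤ j * Real.log j := by
      have := Real.log_le_log h2 h1
      rwa [Real.log_pow] at this
    have h4 : Real.log 2 ≤ Real.log j := Real.log_le_log (by norm_num) hj
    have h5 : 0 < Real.log 2 := Real.log_pos (by norm_num)
    have h6 : Real.log j ≤ j * Real.log j := by nlinarith
    linarith

theorem sum_small (n : ℕ) : ∑ j ∈ range n, (if j < 2 then Real.log 2 else 0) ≤ 2 * Real.log 2 := by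
  have h5 : 0 < Real.log 2 := Real.log_pos (by norm_num)
  rw [← Finset.sum_filter, Finset.sum_const, nsmul_eq_mul]
  have h1 : ((range n).filter fun j => j < 2) ⊆ range 2 := by
    intro j hj
    rw [mem_filter] at hj
    exact mem_range.mpr hj.2
  have h2 : (((range n).filter fun j => j < 2).card : ℝ) ≤ 2 := by
    have := card_le_card h1
    rw [card_range] at this
    exact_mod_cast this
  exact mul_le_mul_of_nonneg_right h2 h5.le

theorem tt_ge (A : Set ℕ) (n : ℕ) :
    Real.exp (-(2 * ∑ j ∈ range n, A.indicator (fun j : ℕ => (j : ℝ) * Real.log j) j +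
      2 * Real.log 2)) ≤ tt A (fun n => (Fintype.card (Perm (Fin n)) : ℝ)) n := by
  unfold tt
  rw [Real.exp_le_exp, neg_le_neg_iff]
  have h1 : ∀ j ∈ range n, A.indicator (fun j => Real.log (2 * (Fintype.card (Perm (Fin j)) : ℝ))) j ≤
      2 * A.indicator (fun j : ℕ => (j : ℝ) * Real.log j) j + (if j < 2 then Real.log 2 else 0) := by
    intro j _
    by_cases hj : j ∈ A
    · rw [Set.indicator_of_mem hj, Set.indicator_of_mem hj]
      exact log_card j
    · rw [Set.indicator_of_notMem hj, Set.indicator_of_notMem hj]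
      have h5 : 0 < Real.log 2 := Real.log_pos (by norm_num)
      split_ifs
      · linarith
      · linarith
  calc ∑ j ∈ range n, A.indicator (fun j => Real.log (2 * (Fintype.card (Perm (Fin j)) : ℝ))) j
      ≤ ∑ j ∈ range n, (2 * A.indicator (fun j : ℕ => (j : ℝ) * Real.log j) j +
        (if j < 2 then Real.log 2 else 0)) := Finset.sum_le_sum h1
    _ = 2 * ∑ j ∈ range n, A.indicator (fun j : ℕ => (j : ℝ) * Real.log j) j +
        ∑ j ∈ range n, (if j < 2 then Real.log 2 else 0) := by
        rw [Finset.sum_add_distrib, Finset.mul_sum]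
    _ ≤ _ := by linarith [sum_small n]

theorem core2 (U : Ultrafilter ℕ) (hU : (U : Filter ℕ) ≤ atTop)
    (φ : GU (U : Filter ℕ) →* GU (U : Filter ℕ)) (hφ : ∃ x, φ x ≠ 1)
    (A : Set ℕ) [DecidablePred (· ∈ A)] (hA : A ∈ U)
    (hT : ∀ ε : ℝ, 0 < ε → ∀ᶠ n : ℕ in (U : Filter ℕ),
      ∑ j ∈ range n, A.indicator (fun j : ℕ => (j : ℝ) * Real.log j) j ≤ ε * n)
    (s : PP) (F : PP → PP) (K : Set PP) (hK : @IsClosed PP topPP K) (m : ℕ → ℕ)
    (hm : ∀ n, ∀ x ∈ K, ∀ y ∈ K, (∀ l, l < m n → x l = y l) → F x n = F y n)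
    (h0 : haar {x | (fun l => if l ∈ A then x l else s l) ∈ K} ≠ 0)
    (hKF : ∀ x ∈ K, φ (cl (U : Filter ℕ) x) = cl (U : Filter ℕ) (F x)) :
    ∃ g : GU (U : Filter ℕ), ∀ x, φ x = g * x * g⁻¹ := by
  let t : ∀ n : ℕ, TopologicalSpace (Perm (Fin n)) := fun _ => ⊥
  have : ∀ n : ℕ, DiscreteTopology (Perm (Fin n)) := fun _ => ⟨rfl⟩
  let mp : ∀ n : ℕ, MeasurableSpace (Perm (Fin n)) := fun _ => ⊤
  have : ∀ n : ℕ, MeasurableSingletonClass (Perm (Fin n)) := fun n => ⟨fun _ => trivial⟩
  have hmix : ∀ x y : PP, (∀ l ∈ A, x l = y l) →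
      (fun l => if l ∈ A then x l else s l : PP) = fun l => if l ∈ A then y l else s l := by
    intro x y hxy
    funext l
    by_cases hl : l ∈ A
    · rw [if_pos hl, if_pos hl, hxy l hl]
    · rw [if_neg hl, if_neg hl]
  have hcont : Continuous fun x : PP => (fun l => if l ∈ A then x l else s l : PP) := by
    refine continuous_pi fun l => ?_
    by_cases hl : l ∈ A
    · have : (fun x : PP => (if l ∈ A then x l else s l : Perm (Fin l))) = fun x => x l := by
        funext x
        rw [if_pos hl]
      rw [this]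
      exact continuous_apply l
    · have : (fun x : PP => (if l ∈ A then x l else s l : Perm (Fin l))) = fun _ => s l := by
        funext x
        rw [if_neg hl]
      rw [this]
      exact continuous_const
  obtain ⟨β, S, f, hβ, hSd, hSn, hSs, hSr, hfc, hbr⟩ := exists_tree2
    (X := fun n => Perm (Fin n)) (Y := fun n => Perm (Fin n)) A
    {x | (fun l => if l ∈ A then x l else s l) ∈ K} (hK.preimage hcont) h0 s (by
      intro x y hxy
      show (fun l => if l ∈ A then x l else s l : PP) ∈ K ↔
        (fun l => if l ∈ A then y l else s l : PP) ∈ K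
      rw [hmix x y hxy]) (fun x => F fun l => if l ∈ A then x l else s l) (by
      intro x y hxy
      show F (fun l => if l ∈ A then x l else s l) = F fun l => if l ∈ A then y l else s l
      rw [hmix x y hxy]) m (by
      intro n x hx y hy hxy
      refine hm n _ hx _ hy fun l hl => ?_
      by_cases hlA : l ∈ A
      · rw [if_pos hlA, if_pos hlA, hxy l hl]
      · rw [if_neg hlA, if_neg hlA])
  refine main2 U hU φ hφ 1 one_pos (fun n => (univ : Finset (Fin n))) ?_ S hSd hSn ?_ ?_ f hfc ?_
  · refine Eventually.of_forall fun n => ?_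
    rw [card_univ, Fintype.card_fin, one_mul]
  · refine Eventually.of_forall fun n x σ _ i hi => ?_
    exact absurd (mem_univ i) hi
  · intro ε hε
    have hc : ∀ᶠ n : ℕ in atTop, Real.exp (-(ε / 2 * n)) ≤ β * Real.exp (-(2 * Real.log 2)) := by
      have h1 : Tendsto (fun n : ℕ => Real.exp (-(ε / 2 * (n : ℝ)))) atTop (𝓝 0) := by
        have h2 : Tendsto (fun n : ℕ => ε / 2 * (n : ℝ)) atTop atTop :=
          tendsto_natCast_atTop_atTop.const_mul_atTop (by positivity)
        exact Real.tendsto_exp_neg_atTop_nhds_zero.comp h2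
      have h3 := h1.eventually (Iic_mem_nhds (show (0 : ℝ) < β * Real.exp (-(2 * Real.log 2)) by
        positivity))
      exact h3
    filter_upwards [hA, hU hc, hT (ε / 4) (by positivity)] with n hn hn2 hn3 x
    rw [card_univ, Fintype.card_fin]
    have h1 := hSr n hn x
    rw [Fintype.card_perm, Fintype.card_fin] at h1
    refine le_trans (mul_le_mul_of_nonneg_right ?_ (Nat.cast_nonneg _)) h1
    have h2 := tt_ge A n
    calc Real.exp (-(ε * n)) = Real.exp (-(ε / 2 * n)) * Real.exp (-(2 * (ε / 4 * n))) := by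
          rw [← Real.exp_add]
          congr 1
          ring
      _ ≤ (β * Real.exp (-(2 * Real.log 2))) *
          Real.exp (-(2 * ∑ j ∈ range n, A.indicator (fun j : ℕ => (j : ℝ) * Real.log j) j)) := by
          refine mul_le_mul hn2 ?_ (Real.exp_pos _).le (by positivity)
          rw [Real.exp_le_exp]
          linarith
      _ = β * Real.exp (-(2 * ∑ j ∈ range n, A.indicator (fun j : ℕ => (j : ℝ) * Real.log j) j +
          2 * Real.log 2)) := by
          rw [mul_assoc, ← Real.exp_add]
          congr 2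
          ring
      _ ≤ _ := mul_le_mul_of_nonneg_left h2 hβ.le
  · intro σ hσ
    obtain ⟨h1, h2⟩ := hbr σ hσ
    have h3 : (fun l => if l ∈ A then σ l else s l : PP) = σ := by
      funext l
      by_cases hl : l ∈ A
      · rw [if_pos hl]
      · rw [if_neg hl]
        have h3 := hσ l
        rw [hSs l hl] at h3
        exact h3.symm
    have h4 : (fun l => if l ∈ A then σ l else s l : PP) ∈ K := h1
    rw [h3] at h4
    rw [hKF σ h4]
    refine cl_congr_mem hA fun n hn => ?_
    have h5 : F (fun l => if l ∈ A then σ l else s l) n = f n σ := h2 n hn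
    rwa [h3] at h5

end Pool.Agent.helper69.MT
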