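import Pool.Agent.helper69.MT.Core2
import Pool.Agent.helper69.MQ.Main

set_option autoImplicit false

/-!
# Measurable lifts of endomorphisms, for thin ultrafilters
-/

namespace Pool.Agent.helper69.MT

open Finset Filter Topology MeasureTheory
open Equiv (Perm)
open Pool.Agent.helper4.UP
open Pool.Agent.helper69.MQ (PP topPP measPP haar cl_congr_mem cl_of_tail Inner BaireOn HaarOn
  QPoint le_atTop_of_nonprincipal)
open Pool.Agent.helper47.MU (exists_rho_baire)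

theorem haar_prob : IsProbabilityMeasure haar := by
  unfold haar
  have : ∀ n : ℕ, IsProbabilityMeasure (@Pool.Agent.helper69.MU.uni (Perm (Fin n)) _ _ ⊤) := by
    intro n
    unfold Pool.Agent.helper69.MU.uni
    infer_instance
  infer_instance

theorem thin_mono {U : Ultrafilter ℕ} {A B : Set ℕ} (hBA : B ⊆ A)
    (hT : ∀ ε : ℝ, 0 < ε → ∀ᶠ n : ℕ in (U : Filter ℕ),
      ∑ j ∈ range n, A.indicator (fun j : ℕ => (j : ℝ) * Real.log j) j ≤ ε * n) :
    ∀ ε : ℝ, 0 < ε → ∀ᶠ n : ℕ in (U : Filter ℕ),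
      ∑ j ∈ range n, B.indicator (fun j : ℕ => (j : ℝ) * Real.log j) j ≤ ε * n := by
  intro ε hε
  filter_upwards [hT ε hε] with n hn
  refine le_trans (Finset.sum_le_sum fun j _ => ?_) hn
  exact Set.indicator_le_indicator_of_subset hBA (fun j => jlog_nonneg j) j

section

variable {U : Ultrafilter ℕ} (hU : (U : Filter ℕ) ≤ atTop) (hq : Thin U)

include hU hq

theorem inner_of_comeagre (φ : GU (U : Filter ℕ) →* GU (U : Filter ℕ)) (hφ : ∃ x, φ x ≠ 1)
    (Φ : PP → PP) (hΦ1 : ∀ (n : ℕ) (σ : Perm (Fin n)), @BaireMeasurableSet PP topPP {x | Φ x n = σ})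
    (hΦ : {x : PP | φ (cl (U : Filter ℕ) x) = cl (U : Filter ℕ) (Φ x)} ∈ @residual PP topPP) :
    Inner φ := by
  classical
  let t : ∀ n : ℕ, TopologicalSpace (Perm (Fin n)) := fun _ => ⊥
  have : ∀ n : ℕ, DiscreteTopology (Perm (Fin n)) := fun _ => ⟨rfl⟩
  obtain ⟨A, hA, s, hC, hwin⟩ := Pool.Agent.helper81.MU.baire_filler'
    (X := fun n => Perm (Fin n)) (Y := fun n => Perm (Fin n)) U Φ hΦ1 _ hΦ
  choose m hm using hwin
  obtain ⟨B, hB, hT⟩ := hq
  have hAB : A ∩ B ∈ U := inter_mem hA hB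
  have hcl : IsClosed {z : PP | ∀ l ∉ A ∩ B, z l = s l} := by
    have h1 : {z : PP | ∀ l ∉ A ∩ B, z l = s l} = ⋂ l, ⋂ (_ : l ∉ A ∩ B), {z | z l = s l} := by
      ext z
      simp only [Set.mem_iInter]
      rfl
    rw [h1]
    exact isClosed_iInter fun l => isClosed_iInter fun _ =>
      isClosed_eq (continuous_apply l) continuous_const
  refine core2 U hU φ hφ (A ∩ B) hAB (thin_mono Set.inter_subset_right hT) s Φ
    {z | ∀ l ∉ A ∩ B, z l = s l} hcl m ?_ ?_ ?_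
  · intro n x hx y hy hxy
    exact hm n x y hxy x y (fun _ _ => rfl) (fun l hl => hx l fun h => hl h.1)
      (fun _ _ => rfl) (fun l hl => hy l fun h => hl h.1)
  · have h1 : {x : PP | (fun l => if l ∈ A ∩ B then x l else s l : PP) ∈
        {z : PP | ∀ l ∉ A ∩ B, z l = s l}} = Set.univ := by
      ext x
      simp only [Set.mem_univ, iff_true]
      intro l hl
      exact if_neg hl
    rw [h1]
    have := haar_prob
    rw [measure_univ]
    exact one_ne_zero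
  · intro x hx
    exact hC x fun l hl => hx l fun h => hl h.1

theorem inner_of_baireOn (φ : GU (U : Filter ℕ) →* GU (U : Filter ℕ)) (hφ : ∃ x, φ x ≠ 1)
    (h : BaireOn φ) : Inner φ := by
  obtain ⟨Φ, C, hΦ, hC, hC0, hα⟩ := h
  let t : ∀ n : ℕ, TopologicalSpace (Perm (Fin n)) := fun _ => ⊥
  have : ∀ n : ℕ, DiscreteTopology (Perm (Fin n)) := fun _ => ⟨rfl⟩
  obtain ⟨ρ, hc, ho, ⟨m, hm⟩, hres⟩ := exists_rho_baire
    (X := fun n => Perm (Fin n)) C hC hC0
  refine inner_of_comeagre hU hq φ hφ (Φ ∘ ρ) (fun n σ => ?_) ?_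
  · exact (hΦ n σ).preimage hc ho
  · refine mem_of_superset hres fun x hx => ?_
    show φ (cl (U : Filter ℕ) x) = cl (U : Filter ℕ) (Φ (ρ x))
    rw [← hα (ρ x) hx, cl_of_tail hU (fun l hl => (hm x l hl))]

theorem inner_of_haarOn (φ : GU (U : Filter ℕ) →* GU (U : Filter ℕ)) (hφ : ∃ x, φ x ≠ 1)
    (h : HaarOn φ) : Inner φ := by
  classical
  obtain ⟨Φ, C, hΦ, hC, hC0, hα⟩ := h
  obtain ⟨A, hA, hT⟩ := hq
  let t : ∀ n : ℕ, TopologicalSpace (Perm (Fin n)) := fun _ => ⊥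
  have : ∀ n : ℕ, DiscreteTopology (Perm (Fin n)) := fun _ => ⟨rfl⟩
  let mp : ∀ n : ℕ, MeasurableSpace (Perm (Fin n)) := fun _ => ⊤
  have : ∀ n : ℕ, MeasurableSingletonClass (Perm (Fin n)) := fun n => ⟨fun _ => trivial⟩
  have hfin : IsProbabilityMeasure haar := haar_prob
  obtain ⟨K, hKC, hKc, hK0, hwin⟩ := Pool.Agent.helper7.MQ.exists_lusin
    (X := fun n => Perm (Fin n)) (Y := fun n => Perm (Fin n)) haar Φ hΦ C hC hC0
  choose m hm using hwin
  have hKm : MeasurableSet K := hKc.measurableSet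
  obtain ⟨s, hs⟩ := Pool.Agent.helper34.MQ.exists_filler (X := fun n => Perm (Fin n)) A K hKm hK0
  exact core2 U hU φ hφ A hA hT s Φ K hKc m hm hs fun x hx => hα x (hKC hx)

end

/-- **Main theorem.** -/
theorem main5 (U : Ultrafilter ℕ) (hU : ∀ n : ℕ, ({n} : Set ℕ) ∉ U) (hq : Thin U)
    (φ : GU (U : Filter ℕ) →* GU (U : Filter ℕ)) (hφ : ∃ x, φ x ≠ 1) :
    (Inner φ ↔ BaireOn φ) ∧ (Inner φ ↔ HaarOn φ) :=
  ⟨⟨Inner.baireOn, inner_of_baireOn (le_atTop_of_nonprincipal hU) hq φ hφ⟩,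
    ⟨Inner.haarOn, inner_of_haarOn (le_atTop_of_nonprincipal hU) hq φ hφ⟩⟩

end Pool.Agent.helper69.MT
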