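import Pool.Agent.helper69.MQ.Stmt

set_option autoImplicit false

/-!
# Thin ultrafilters
-/

namespace Pool.Agent.helper69.MT

open Finset Filter

/-- `U` is thin: some set `A` in `U` is so sparse that the sum of `j log j` over the `j < n` in `A`
is `o(n)` along `U` -/
def Thin (U : Ultrafilter ℕ) : Prop :=
  ∃ A ∈ U, ∀ ε : ℝ, 0 < ε → ∀ᶠ n : ℕ in (U : Filter ℕ),
    ∑ j ∈ range n, A.indicator (fun j : ℕ => (j : ℝ) * Real.log j) j ≤ ε * n

end Pool.Agent.helper69.MT
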